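import Pool.Agent.Helper22.TW.Stmts

/-!
# Module GRP: doubles of points over the fixed field are infinitely `2`-divisible
-/

set_option autoImplicit false

namespace Pool.Agent.Helper22.TW

open Pool.Agent.Helper14.BSC Polynomial

section Curve

variable {M : Type} [Field M] {e : Fin 3 → M}

theorem grp_root {x : M} (h : Eqn e x 0) : ∃ i, x = e i := by
  unfold Eqn at h
  have h1 : (x - e 0) * (x - e 1) * (x - e 2) = 0 := by
    rw [← h]
    ring
  rcases mul_eq_zero.1 h1 with h2 | h2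
  · rcases mul_eq_zero.1 h2 with h3 | h3
    · exact ⟨0, sub_eq_zero.1 h3⟩
    · exact ⟨1, sub_eq_zero.1 h3⟩
  · exact ⟨2, sub_eq_zero.1 h2⟩

variable [CharZero M]

/-- There is no point of order `4`. -/
theorem grp_four (hD : ST_DBL) (he : Function.Injective e)
    (hb : ∀ i, ∃ j, j ≠ i ∧ ¬ IsSquare (e i - e j)) (R : EE e) (h : (R + R) + (R + R) = 0) :
    R + R = 0 := by
  rcases EE.cases he (R + R) with h1 | ⟨x, y, hxy, h1⟩
  · exact h1
  · exfalso
    by_cases hy : y = 0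
    · subst hy
      obtain ⟨i, hi⟩ := grp_root hxy
      obtain ⟨j, -, hj⟩ := hb i
      rw [← hi] at hj
      exact hj (hD M e he x 0 hxy R h1 j)
    · obtain ⟨x₃, y₃, h₃, h4, -⟩ := EE.add_self he hxy hy
      rw [h1, h4] at h
      exact EE.pt_ne_zero he h₃ h

/-- Every point is a double up to a point of order two. -/
theorem grp_half (hH : ST_HALF) (hHT : ST_HALFT) (he : Function.Injective e)
    (hc : ∀ x y : M, Eqn e x y → y ≠ 0 → (∀ i, IsSquare (x - e i)) ∨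
      ∃ i, ∀ j, j ≠ i → IsSquare ((x - e j) * (e i - e j)))
    (P : EE e) : ∃ R T : EE e, P + T = R + R ∧ T + T = 0 := by
  rcases EE.cases he P with h1 | ⟨x, y, hxy, h1⟩
  · exact ⟨0, 0, by rw [h1], add_zero 0⟩
  · by_cases hy : y = 0
    · subst hy
      refine ⟨0, P, ?_, ?_⟩
      · rw [h1, EE.add_self_zero he hxy, add_zero]
      · rw [h1, EE.add_self_zero he hxy]
    · rcases hc x y hxy hy with h2 | ⟨i, h2⟩
      · obtain ⟨Q, hQ⟩ := hH M e he x y hxy h2
        exact ⟨Q, 0, by rw [h1, hQ, add_zero], add_zero 0⟩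
      · obtain ⟨Q, hQ⟩ := hHT M e he x y hxy hy i h2
        exact ⟨Q, EE.pt he (e i) 0 (Eqn.root i), by rw [h1, hQ],
          EE.add_self_zero he (Eqn.root i)⟩

end Curve

section Group

variable {G : Type} [AddCommGroup G]

theorem grp_tors (h4 : ∀ R : G, (R + R) + (R + R) = 0 → R + R = 0) :
    ∀ (m : ℕ) (R : G), (2 ^ (m + 1)) • R = 0 → R + R = 0 := by
  intro m
  induction m with
  | zero =>
    intro R h
    rw [zero_add, pow_one, two_nsmul] at h
    exact h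
  | succ m ih =>
    intro R h
    apply h4
    apply ih
    rw [← two_nsmul, ← mul_nsmul', ← pow_succ]
    exact h

theorem grp_div (h1 : ∀ P : G, ∃ R T : G, P + T = R + R ∧ T + T = 0) (P : G) :
    ∃ T₀ : G, T₀ + T₀ = 0 ∧ ∀ m : ℕ, ∃ R : G, P + T₀ = (2 ^ (m + 1)) • R := by
  obtain ⟨R₁, T₀, hR, hT⟩ := h1 P
  refine ⟨T₀, hT, ?_⟩
  intro m
  induction m with
  | zero => exact ⟨R₁, by rw [hR, zero_add, pow_one, two_nsmul]⟩
  | succ m ih =>
    obtain ⟨R, hR'⟩ := ih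
    obtain ⟨R', T, h2, h3⟩ := h1 R
    refine ⟨R', ?_⟩
    have h4 : (2 ^ (m + 1)) • T = 0 := by
      rw [pow_succ, mul_nsmul', two_nsmul, h3, nsmul_zero]
    have h5 : (2 ^ (m + 1)) • (R + T) = (2 ^ (m + 1)) • (R' + R') := by rw [h2]
    rw [nsmul_add, h4, add_zero, ← hR', ← two_nsmul, ← mul_nsmul', ← pow_succ] at h5
    exact h5

end Group

section Act

variable {F k Ω : Type} [Field F] [Field k] [Field Ω] [Algebra F k] [Algebra F Ω] [Algebra k Ω]
  [IsScalarTower F k Ω]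

/-- The constants are stable. -/
theorem grp_KS (D : Sec k Ω) (g : GG k Ω) {a : Acl k Ω} (ha : a ∈ KS F k Ω) :
    g a ∈ KS F k Ω := by
  have h1 : IsAlgebraic F (a : Ω) := ha
  have h2 : IsAlgebraic F ((((D.s g).restrictScalars F : Ω ≃ₐ[F] Ω) : Ω →ₐ[F] Ω) (a : Ω)) :=
    h1.algHom _
  have h3 : (((D.s g).restrictScalars F : Ω ≃ₐ[F] Ω) : Ω →ₐ[F] Ω) (a : Ω)
      = ((g a : Acl k Ω) : Ω) := D.ext g a
  rw [h3] at h2
  exact h2

theorem grp_mem (D : Sec k Ω) (g : GG k Ω) {x : Ω} (hx : x ∈ NN D (KS F k Ω)) :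
    D.s g x ∈ NN D (KS F k Ω) := by
  rw [mem_NN] at hx ⊢
  intro h hh
  have h1 : g⁻¹ * h * g ∈ Stab (KS F k Ω) := by
    rw [mem_Stab]
    intro a ha
    have h2 : h (g a) = g a := (mem_Stab.1 hh) (g a) (grp_KS D g ha)
    calc (g⁻¹ * h * g) a = g⁻¹ (h (g a)) := rfl
      _ = g⁻¹ (g a) := by rw [h2]
      _ = (g⁻¹ * g) a := rfl
      _ = a := by rw [inv_mul_cancel]; rfl
  have h3 : h * g = g * (g⁻¹ * h * g) := by group
  calc D.s h (D.s g x) = (D.s h * D.s g) x := rfl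
    _ = D.s (h * g) x := by rw [map_mul]
    _ = D.s (g * (g⁻¹ * h * g)) x := by rw [h3]
    _ = (D.s g * D.s (g⁻¹ * h * g)) x := by rw [map_mul]
    _ = D.s g (D.s (g⁻¹ * h * g) x) := rfl
    _ = D.s g x := by rw [hx _ h1]

/-- The action on the fixed field of the constants. -/
def grp_act (F : Type) [Field F] [Algebra F k] [Algebra F Ω] [IsScalarTower F k Ω] (D : Sec k Ω)
    (g : GG k Ω) : NN D (KS F k Ω) →+* NN D (KS F k Ω) where
  toFun x := ⟨D.s g x, grp_mem D g x.2⟩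
  map_one' := Subtype.ext (map_one _)
  map_mul' _ _ := Subtype.ext (map_mul _ _ _)
  map_zero' := Subtype.ext (map_zero _)
  map_add' _ _ := Subtype.ext (map_add _ _ _)

theorem grp_le (D : Sec k Ω) (S : Set (Acl k Ω)) : NN D ∅ ≤ NN D S :=
  NN_le D (fun g _ => by
    rw [mem_Stab]
    intro a ha
    exact absurd ha (Set.notMem_empty a))

omit [Algebra F Ω] [IsScalarTower F k Ω] in
theorem grp_inj {t : k} (hG : Gen F k t) {e : Fin 3 → F[X]} (he : Function.Injective e)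
    (D : Sec k Ω) (S : Set (Acl k Ω)) : Function.Injective (eN D S t e) := by
  intro i j hij
  apply he
  unfold eN at hij
  have h1 : aeval t (e i) = aeval t (e j) := (algebraMap k (NN D S)).injective hij
  have h2 : Function.Injective (aeval t : F[X] →ₐ[F] k) := transcendental_iff_injective.1 hG.1
  exact h2 h1

end Act

theorem st_GRP (hH : ST_HALF) (hHT : ST_HALFT) (hD : ST_DBL) (hM : ST_MAPP) : ST_GRP := by
  intro F k Ω _ _ _ _ _ _ _ _ _ _ _ t D e hG he hC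
  obtain ⟨hC1, hC2⟩ := hC
  have he1 := grp_inj hG he D (KS F k Ω)
  have he0 := grp_inj hG he D (∅ : Set (Acl k Ω))
  set e1 := eN D (KS F k Ω) t e with he1def
  set e0 := eN D (∅ : Set (Acl k Ω)) t e with he0def
  intro P
  -- the group over the constants
  have hhalf := grp_half hH hHT he1 hC1
  have hfour := grp_four hD he1 hC2
  have htors := grp_tors hfour
  -- the inclusion
  obtain ⟨Φ, hΦ⟩ := hM (NN D ∅) (NN D (KS F k Ω))
    (IntermediateField.inclusion (grp_le D (KS F k Ω))).toRingHom e0 he0 e1 he1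
    (fun i => Subtype.ext rfl)
  have hΦinj : ∀ Q : EE e0, Φ Q = 0 → Q = 0 := by
    intro Q hQ
    rcases EE.cases he0 Q with h1 | ⟨x, y, hxy, h1⟩
    · exact h1
    · exfalso
      obtain ⟨h', h2⟩ := hΦ x y hxy
      rw [h1, h2] at hQ
      exact EE.pt_ne_zero he1 h' hQ
  -- the action
  have hact : ∀ g : GG k Ω, ∃ Ψ : EE e1 →+ EE e1, ∀ (x y : NN D (KS F k Ω)) (h : Eqn e1 x y),
      ∃ h' : Eqn e1 (grp_act F D g x) (grp_act F D g y),
        Ψ (EE.pt he1 x y h) = EE.pt he1 (grp_act F D g x) (grp_act F D g y) h' := by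
    intro g
    refine hM _ _ (grp_act F D g) e1 he1 e1 he1 ?_
    intro i
    apply Subtype.ext
    exact ((D.s g).commutes _).symm
  have hfix : ∀ (g : GG k Ω) (Ψ : EE e1 →+ EE e1), (∀ (x y : NN D (KS F k Ω)) (h : Eqn e1 x y),
      ∃ h' : Eqn e1 (grp_act F D g x) (grp_act F D g y),
        Ψ (EE.pt he1 x y h) = EE.pt he1 (grp_act F D g x) (grp_act F D g y) h') →
      Ψ (Φ P) = Φ P := by
    intro g Ψ hΨ
    rcases EE.cases he0 P with h1 | ⟨x, y, hxy, h1⟩
    · rw [h1, map_zero, map_zero]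
    · obtain ⟨h', h2⟩ := hΦ x y hxy
      rw [h1, h2]
      obtain ⟨h'', h3⟩ := hΨ _ _ h'
      rw [h3]
      refine EE.pt_congr he1 ?_ ?_
      · apply Subtype.ext
        exact (mem_NN.1 x.2) g (by
          rw [mem_Stab]
          intro a ha
          exact absurd ha (Set.notMem_empty a))
      · apply Subtype.ext
        exact (mem_NN.1 y.2) g (by
          rw [mem_Stab]
          intro a ha
          exact absurd ha (Set.notMem_empty a))
  obtain ⟨T₀, hT₀, hdiv⟩ := grp_div hhalf (Φ P)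
  intro m
  rcases m with _ | m
  · exact ⟨P + P, by rw [pow_zero, one_nsmul]⟩
  obtain ⟨R, hR⟩ := hdiv m
  -- the double of `R` is fixed
  have hRfix : ∀ (g : GG k Ω) (Ψ : EE e1 →+ EE e1), (∀ (x y : NN D (KS F k Ω)) (h : Eqn e1 x y),
      ∃ h' : Eqn e1 (grp_act F D g x) (grp_act F D g y),
        Ψ (EE.pt he1 x y h) = EE.pt he1 (grp_act F D g x) (grp_act F D g y) h') →
      Ψ (R + R) = R + R := by
    intro g Ψ hΨ
    have h1 : (2 ^ (m + 1)) • (Ψ R - R) = Ψ T₀ - T₀ := by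
      rw [nsmul_sub, ← map_nsmul, ← hR, map_add, hfix g Ψ hΨ]
      abel
    have h2 : (2 ^ (m + 1 + 1)) • (Ψ R - R) = 0 := by
      rw [pow_succ, mul_comm, mul_nsmul', h1, two_nsmul]
      have h3 : Ψ T₀ + Ψ T₀ = 0 := by rw [← map_add, hT₀, map_zero]
      calc Ψ T₀ - T₀ + (Ψ T₀ - T₀) = (Ψ T₀ + Ψ T₀) - (T₀ + T₀) := by abel
        _ = 0 := by rw [h3, hT₀, sub_zero]
    have h3 := htors (m + 1) _ h2
    rw [map_add]
    have h4 : Ψ R + Ψ R - (R + R) = 0 := by
      calc Ψ R + Ψ R - (R + R) = (Ψ R - R) + (Ψ R - R) := by abel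
        _ = 0 := h3
    exact sub_eq_zero.1 h4
  have hQ : ∃ Q : EE e0, Φ Q = R + R := by
    rcases EE.cases he1 (R + R) with h1 | ⟨x, y, hxy, h1⟩
    · exact ⟨0, by rw [map_zero, h1]⟩
    · have h2 : ∀ g : GG k Ω, D.s g (x : Ω) = x ∧ D.s g (y : Ω) = y := by
        intro g
        obtain ⟨Ψ, hΨ⟩ := hact g
        have h3 := hRfix g Ψ hΨ
        rw [h1] at h3
        obtain ⟨h', h4⟩ := hΨ x y hxy
        rw [h4] at h3
        obtain ⟨h5, h6⟩ := EE.pt_inj he1 h3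
        exact ⟨congrArg Subtype.val h5, congrArg Subtype.val h6⟩
      have hx0 : (x : Ω) ∈ NN D (∅ : Set (Acl k Ω)) := mem_NN.2 (fun g _ => (h2 g).1)
      have hy0 : (y : Ω) ∈ NN D (∅ : Set (Acl k Ω)) := mem_NN.2 (fun g _ => (h2 g).2)
      have hE : Eqn e0 (⟨(x : Ω), hx0⟩ : NN D (∅ : Set (Acl k Ω))) ⟨(y : Ω), hy0⟩ := by
        unfold Eqn at hxy ⊢
        apply Subtype.ext
        have h9 := congrArg (fun z : NN D (KS F k Ω) => (z : Ω)) hxy
        exact h9
      obtain ⟨h', h3⟩ := hΦ _ _ hE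
      refine ⟨EE.pt he0 _ _ hE, ?_⟩
      rw [h3, h1]
      exact EE.pt_congr he1 (Subtype.ext rfl) (Subtype.ext rfl)
  obtain ⟨Q, hQ⟩ := hQ
  refine ⟨Q, ?_⟩
  have h5 : Φ ((2 ^ (m + 1)) • Q - (P + P)) = 0 := by
    rw [map_sub, map_nsmul, hQ, ← two_nsmul, ← mul_nsmul', mul_comm, mul_nsmul', ← hR, two_nsmul,
      map_add]
    calc Φ P + T₀ + (Φ P + T₀) - (Φ P + Φ P) = T₀ + T₀ := by abel
      _ = 0 := hT₀
  exact sub_eq_zero.1 (hΦinj _ h5)

end Pool.Agent.Helper22.TW
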